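import Pool.Agent.Lib.MP_4fbe7c_an.WN.Base

/-!
Project WN (MP_4fbe7c_an), module DRT: time derivatives of the density.
-/

set_option autoImplicit false

open Set MeasureTheory

namespace Pool.Agent.Lib.MP_4fbe7c_an.WN.H70

open Pool.Agent.Lib.MP_4fbe7c_an.UL Pool.Agent.Lib.MP_4fbe7c_an.ND
open Pool.Agent.Lib.MP_4fbe7c_an.WN

lemma hw_deriv (R : ℝ) : HasDerivAt hw (hw1 R) R := by
  have h1 : HasDerivAt (fun R : ℝ => 4 - 4 * R) (-4) R := by
    simpa using ((hasDerivAt_id R).const_mul 4).const_sub 4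
  have h2 := ((h1.exp).const_add 1).div_const 2
  have h3 : Real.exp (4 - 4 * R) * -4 / 2 = hw1 R := by
    unfold hw1
    ring
  rw [h3] at h2
  exact h2

lemma qv_deriv {n k : ℕ} {r : ℕ → ℝ → ℝ} {r' : ℕ → ℝ} {t : ℝ}
    (h : ∀ i, i ≤ n → HasDerivAt (r i) (r' i) t) :
    HasDerivAt (fun t => qv n (fun i => r i t) k) (qv n r' k) t := by
  unfold qv
  exact HasDerivAt.fun_sum fun i hi => h i (by have := (Finset.mem_Ico.mp hi).2; omega)

lemma exch {n : ℕ} (c x : ℕ → ℝ) :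
    ∑ i ∈ Finset.Ico 1 (n + 1), (∑ k ∈ Finset.Ico 2 (i + 1), c k) * x i
      = ∑ k ∈ Finset.Ico 2 (n + 1), c k * qv n x k := by
  have h1 : ∑ i ∈ Finset.Ico 1 (n + 1), (∑ k ∈ Finset.Ico 2 (i + 1), c k) * x i
      = ∑ i ∈ Finset.Ico 2 (n + 1), ∑ k ∈ Finset.Ico 2 (i + 1), c k * x i := by
    rcases Nat.eq_zero_or_pos n with rfl | h0
    · simp
    · rw [Finset.sum_eq_sum_Ico_succ_bot (by omega)]
      simp only [Finset.sum_mul]
      simp
  rw [h1, ← Finset.sum_Ico_Ico_comm]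
  refine Finset.sum_congr rfl fun k _ => ?_
  rw [← Finset.mul_sum]
  rfl

theorem drt_st (hP : PhiStatement) : DrtStatement := by
  intro n κ a b r r' t h h0
  have dq := fun k => qv_deriv (k := k) h
  have dP : HasDerivAt (fun t => Ph (r 0 t)) (Ph1 (r 0 t) * r' 0) t :=
    HasDerivAt.comp t ((hP.1 _ h0).1) (h 0 (Nat.zero_le _))
  have dh : HasDerivAt (fun t => hw (qv n (fun i => r i t) 0))
      (hw1 (qv n (fun i => r i t) 0) * qv n r' 0) t :=
    HasDerivAt.comp t (hw_deriv _) (dq 0)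
  have dv : HasDerivAt (fun t => qv n (fun i => r i t) 1 ^ 2 / 2)
      (qv n (fun i => r i t) 1 * qv n r' 1) t := by
    refine (((dq 1).fun_pow 2).div_const 2).congr_deriv ?_
    simp only [Nat.cast_ofNat, Nat.add_one_sub_one, pow_one]
    ring
  have dS : HasDerivAt (fun t => ∑ k ∈ Finset.Ico 2 (n + 1), al κ k * qv n (fun i => r i t) k ^ 2)
      (∑ k ∈ Finset.Ico 2 (n + 1), al κ k * (2 * (qv n (fun i => r i t) k * qv n r' k))) t := by
    refine HasDerivAt.fun_sum fun k _ => ?_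
    refine (((dq k).fun_pow 2).const_mul (al κ k)).congr_deriv ?_
    simp only [Nat.cast_ofNat, Nat.add_one_sub_one, pow_one]
    ring
  have dN : HasDerivAt (fun t => Nq n κ a b (fun i => r i t))
      (2 * a * (qv n (fun i => r i t) 1 * qv n r' 1) +
        b * ∑ k ∈ Finset.Ico 2 (n + 1), al κ k * (2 * (qv n (fun i => r i t) k * qv n r' k))) t := by
    unfold Nq
    refine ((((dq 1).fun_pow 2).const_mul a).add (dS.const_mul b)).congr_deriv ?_
    simp only [Nat.cast_ofNat, Nat.add_one_sub_one, pow_one]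
    ring
  have dF := (dP.add dv).add ((dh.div_const 2).mul dN)
  refine HasDerivAt.congr_deriv dF ?_
  have e0 : ∑ i ∈ Finset.range (n + 1), Ff n κ a b (fun i => r i t) i * r' i
      = Ff n κ a b (fun i => r i t) 0 * r' 0
        + ∑ i ∈ Finset.Ico (0 + 1) (n + 1), Ff n κ a b (fun i => r i t) i * r' i := by
    rw [Finset.range_eq_Ico, Finset.sum_eq_sum_Ico_succ_bot (by omega)]
  rw [e0]
  have e1 : ∀ i ∈ Finset.Ico (0 + 1) (n + 1), Ff n κ a b (fun i => r i t) i * r' i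
      = (qv n (fun i => r i t) 1 + hw1 (qv n (fun i => r i t) 0) / 2 * Nq n κ a b (fun i => r i t)
          + hw (qv n (fun i => r i t) 0) * (a * qv n (fun i => r i t) 1)) * r' i
        + hw (qv n (fun i => r i t) 0) * (b * ((∑ k ∈ Finset.Ico 2 (i + 1),
          al κ k * qv n (fun i => r i t) k) * r' i)) := by
    intro i hi
    have hi0 : i ≠ 0 := by have := (Finset.mem_Ico.mp hi).1; omega
    unfold Ff Sb
    rw [if_neg hi0]
    ring
  rw [Finset.sum_congr rfl e1, Finset.sum_add_distrib, ← Finset.mul_sum, ← Finset.mul_sum,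
    ← Finset.mul_sum]
  have e2 : ∑ i ∈ Finset.Ico (0 + 1) (n + 1), r' i = qv n r' 1 := rfl
  have e3 : ∑ i ∈ Finset.Ico (0 + 1) (n + 1), (∑ k ∈ Finset.Ico 2 (i + 1),
      al κ k * qv n (fun i => r i t) k) * r' i
      = ∑ k ∈ Finset.Ico 2 (n + 1), al κ k * qv n (fun i => r i t) k * qv n r' k :=
    exch _ _
  have e4 : ∑ k ∈ Finset.Ico 2 (n + 1), al κ k * (2 * (qv n (fun i => r i t) k * qv n r' k))
      = 2 * ∑ k ∈ Finset.Ico 2 (n + 1), al κ k * qv n (fun i => r i t) k * qv n r' k := by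
    rw [Finset.mul_sum]
    exact Finset.sum_congr rfl fun k _ => by ring
  rw [e2, e3, e4, qv_zero r']
  have e5 : Ff n κ a b (fun i => r i t) 0 = Ph1 (r 0 t)
      + hw1 (qv n (fun i => r i t) 0) / 2 * Nq n κ a b (fun i => r i t) := by
    unfold Ff
    rw [if_pos rfl]
  rw [e5]
  ring

end Pool.Agent.Lib.MP_4fbe7c_an.WN.H70
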